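import Mathlib
import Pool.Agent.W296.LCB
import Pool.Agent.W296.BallB

set_option autoImplicit false

/-!
# An evasive locally constructible 3-ball

The definitions (`IsCx`, `realization`, `IsBall`, `IsLC`, `NonEvasive`) are in
`Pool.Agent.H933R3.Defs`.  The example has 13 vertices and 55 tetrahedra and contains a knotted
triangle of edges.
-/

namespace Pool.Agent.Results.MP_1acbfe_co.LCEvasiveBall

open Pool.Agent.H933R3 Pool.Agent.Helper175.NS

/-- There is a locally constructible triangulated 3-ball that is evasive. -/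
theorem result : ∃ (n : ℕ) (K : Finset (Finset (Fin n))),
    IsCx K ∧ IsBall 3 K ∧ IsLC 3 K ∧ ¬ NonEvasive K :=
  ⟨13, cx 13 Bm, isCx_cx (by decide), Pool.Agent.W296.BallB.isBall_B,
    Pool.Agent.W296.LCB.isLC_B, evasive_B 13 (by norm_num)⟩

end Pool.Agent.Results.MP_1acbfe_co.LCEvasiveBall
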